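import Mathlib
import Pool.Agent.H.MP_f4733e_pr.D

open MeasureTheory ProbabilityTheory Filter Topology Finset

namespace Pool.Agent.Results.MP_f4733e_pr.ZeroSpeed

def unitVec {d : ℕ} (e : Fin d × Bool) : Fin d → ℤ := Pi.single e.1 (if e.2 then 1 else -1)

def X {d : ℕ} (a : ℕ → Fin d × Bool) (n : ℕ) : Fin d → ℤ := ∑ i ∈ range n, unitVec (a i)

def visits {d : ℕ} (a : ℕ → Fin d × Bool) (n : ℕ) : ℕ := #{i ∈ range n | X a i = X a n}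

theorem result {d : ℕ} (P : Measure ((Fin d → ℤ) → ℕ → stdSimplex ℝ (Fin d × Bool)))
    [IsProbabilityMeasure P] (iid₁ : iIndepFun (fun z ω => ω z) P)
    (iid₂ : ∀ z, IdentDistrib (fun ω => ω z) (fun ω => ω 0) P P)
    (el : ∀ z i e, ∀ᵐ ω ∂P, 0 < (ω z i).1 e)
    (κ : Kernel ((Fin d → ℤ) → ℕ → stdSimplex ℝ (Fin d × Bool)) (ℕ → Fin d × Bool))
    [IsMarkovKernel κ]
    (hκ : ∀ ω a n, κ ω {b | ∀ i < n + 1, b i = a i} =
      κ ω {b | ∀ i < n, b i = a i} * ENNReal.ofReal ((ω (X a n) (visits a n)).1 (a n)))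
    (l : Fin d → ℝ) : ∀ᵐ a ∂(κ ∘ₘ P),
      ¬ Tendsto (fun n => √(∑ i, (X a n i : ℝ) ^ 2)) atTop atTop ∨
        ¬ Tendsto (fun n => |∑ i, X a n i * l i|) atTop atTop →
      Tendsto (fun n : ℕ => (∑ i, X a n i * l i) / n) atTop (𝓝 0) :=
  Pool.Agent.H.MP_f4733e_pr.main P iid₁ iid₂ el κ hκ l

end Pool.Agent.Results.MP_f4733e_pr.ZeroSpeed
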